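import Pool.Agent.H16.ZW.Targets

/-!
# Zariski dense orbits: module LMA, after finitely many steps the characters move inside `1 + pO`
-/

open Matrix

namespace Pool.Agent.H39.ZW

open Pool.Agent.H16.ZW Pool.Agent.H12.ZD

/-! ## Vectors orthogonal to `w` -/

section

variable {N : ℕ} {w : Fin N → ℤ}

theorem ort_add {a b : Fin N → ℤ} (ha : Ort w a) (hb : Ort w b) : Ort w (a + b) := by
  unfold Ort at *
  simp only [Pi.add_apply, add_mul, Finset.sum_add_distrib, ha, hb, add_zero]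

theorem ort_sub {a b : Fin N → ℤ} (ha : Ort w a) (hb : Ort w b) : Ort w (a - b) := by
  unfold Ort at *
  simp only [Pi.sub_apply, sub_mul, Finset.sum_sub_distrib, ha, hb, sub_zero]

theorem ort_pow {A : Matrix (Fin N) (Fin N) ℤ} (h : ∀ γ, Ort w γ → Ort w (vecMul γ A)) (k : ℕ)
    {γ : Fin N → ℤ} (hγ : Ort w γ) : Ort w (vecMul γ (A ^ k)) := by
  induction k with
  | zero => rw [pow_zero, vecMul_one]; exact hγ
  | succ k ih => rw [pow_succ, ← vecMul_vecMul]; exact h _ ih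

theorem ort_geo {A : Matrix (Fin N) (Fin N) ℤ} (h : ∀ γ, Ort w γ → Ort w (vecMul γ A)) (m : ℕ)
    {γ : Fin N → ℤ} (hγ : Ort w γ) : Ort w (vecMul γ (geo A m)) := by
  induction m with
  | zero =>
    have e : geo A 0 = 0 := rfl
    rw [e, vecMul_zero]
    simp [Ort]
  | succ m ih =>
    have e : geo A (m + 1) = geo A m + A ^ m := Finset.sum_range_succ _ _
    rw [e, vecMul_add]
    exact ort_add ih (ort_pow h m hγ)

end

/-! ## Geometric sums -/

theorem geo_mul {N : ℕ} (A : Matrix (Fin N) (Fin N) ℤ) (k m : ℕ) :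
    geo A (k * m) = geo (A ^ k) m * geo A k := by
  induction m with
  | zero =>
    have e : geo (A ^ k) 0 = 0 := rfl
    have e' : geo A 0 = 0 := rfl
    rw [mul_zero, e, e', zero_mul]
  | succ m ih =>
    have e : geo (A ^ k) (m + 1) = geo (A ^ k) m + (A ^ k) ^ m := Finset.sum_range_succ _ _
    rw [e, add_mul, ← ih]
    unfold geo
    rw [mul_add, mul_one, Finset.sum_range_add, Finset.mul_sum]
    congr 1
    refine Finset.sum_congr rfl fun i _ => ?_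
    rw [pow_add, pow_mul]

theorem pow_sub_one {N : ℕ} (C : Matrix (Fin N) (Fin N) ℤ) (m : ℕ) :
    C ^ m - 1 = geo C m * (C - 1) := (geom_sum_mul C m).symm

theorem dvM_mul {N : ℕ} {n : ℕ} {B C : Matrix (Fin N) (Fin N) ℤ} (h : DvM n C) :
    DvM n (B * C) := by
  intro i j
  rw [Matrix.mul_apply]
  exact Finset.dvd_sum fun l _ => (h l j).mul_left _

/-- powers congruent to `1` modulo `p` -/
theorem exists_pow_dvM {N : ℕ} (p : Nat.Primes) (A : Matrix (Fin N) (Fin N) ℤ)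
    (hdet : ¬ ((p : ℕ) : ℤ) ∣ A.det) : ∃ k : ℕ, 1 ≤ k ∧ DvM p (A ^ k - 1) := by
  classical
  set f : Matrix (Fin N) (Fin N) ℤ →+* Matrix (Fin N) (Fin N) (ZMod (p : ℕ)) :=
    (Int.castRingHom (ZMod (p : ℕ))).mapMatrix with hf
  have h1 : (f A).det ≠ 0 := by
    rw [hf, ← RingHom.map_det]
    intro h
    exact hdet ((ZMod.intCast_zmod_eq_zero_iff_dvd _ _).1 h)
  have h2 : IsUnit (f A) := (Matrix.isUnit_iff_isUnit_det _).2 (isUnit_iff_ne_zero.2 h1)
  obtain ⟨u, hu⟩ := h2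
  refine ⟨orderOf u, orderOf_pos u, fun i j => ?_⟩
  have h3 : f (A ^ orderOf u - 1) = 0 := by
    rw [map_sub, map_pow, map_one, ← hu, ← Units.val_pow_eq_pow_val, pow_orderOf_eq_one,
      Units.val_one, sub_self]
  have h4 := congrFun (congrFun h3 i) j
  exact (ZMod.intCast_zmod_eq_zero_iff_dvd _ _).1 h4

/-! ## The absolute value -/

theorem inv_p_lt (p : Nat.Primes) : ((p : ℕ) : ℝ)⁻¹ < 1 :=
  inv_lt_one_of_one_lt₀ (by exact_mod_cast p.2.one_lt)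

theorem inv_p_pos (p : Nat.Primes) : 0 < ((p : ℕ) : ℝ)⁻¹ :=
  inv_pos.2 (by exact_mod_cast p.2.pos)

theorem v_pow_prime (p : Nat.Primes) (x : Qb) (hx : v p (x - 1) ≤ 1) :
    v p (x ^ (p : ℕ) - 1) ≤ max ((p : ℕ) : ℝ)⁻¹ (v p (x - 1) ^ (p : ℕ)) := by
  have h := add_pow_prime_eq p.2 (x - 1) 1
  rw [sub_add_cancel, one_pow] at h
  have e : x ^ (p : ℕ) - 1 = ((p : ℕ) : Qb) * ((x - 1) * ∑ k ∈ Finset.Ioo 0 (p : ℕ),
      (x - 1) ^ (k - 1) * 1 ^ ((p : ℕ) - k - 1) * (((p : ℕ).choose k / (p : ℕ) : ℕ) : Qb)) +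
        (x - 1) ^ (p : ℕ) := by
    rw [h]
    ring
  rw [e]
  refine (v_add_le p _ _).trans (max_le_max ?_ ?_)
  · rw [v_mul, v_self]
    refine mul_le_of_le_one_right (inv_p_pos p).le ?_
    rw [v_mul]
    refine mul_le_one₀ hx (v_nonneg p _) ?_
    refine v_sum_le p _ _ zero_le_one fun k _ => ?_
    rw [v_mul, v_mul, one_pow, v_one, mul_one, v_pow]
    exact mul_le_one₀ (pow_le_one₀ (v_nonneg p _) hx) (v_nonneg p _) (v_natCast_le p _)
  · rw [v_pow]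

theorem v_pow_prime_pow (p : Nat.Primes) (x : Qb) (hx : v p (x - 1) ≤ 1) (m : ℕ) :
    v p (x ^ (p : ℕ) ^ m - 1) ≤ max ((p : ℕ) : ℝ)⁻¹ (v p (x - 1) ^ (p : ℕ) ^ m) := by
  induction m with
  | zero => simp
  | succ m ih =>
    have h1 : v p (x ^ (p : ℕ) ^ m - 1) ≤ 1 :=
      ih.trans (max_le (inv_p_lt p).le (pow_le_one₀ (v_nonneg p _) hx))
    have h2 := v_pow_prime p (x ^ (p : ℕ) ^ m) h1
    rw [← pow_mul, ← pow_succ] at h2
    refine h2.trans (max_le (le_max_left _ _) ?_)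
    refine (pow_le_pow_left₀ (v_nonneg p _) ih _).trans ?_
    rcases le_total ((p : ℕ) : ℝ)⁻¹ (v p (x - 1) ^ (p : ℕ) ^ m) with h | h
    · rw [max_eq_right h, ← pow_mul, ← pow_succ]
      exact le_max_right _ _
    · rw [max_eq_left h]
      refine le_trans ?_ (le_max_left _ _)
      calc ((p : ℕ) : ℝ)⁻¹ ^ (p : ℕ) ≤ ((p : ℕ) : ℝ)⁻¹ ^ 1 :=
            pow_le_pow_of_le_one (inv_p_pos p).le (inv_p_lt p).le p.2.one_le
        _ = _ := pow_one _

/-- roots of unity are units -/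
theorem v_root (p : Nat.Primes) {x : Qb} {L : ℕ} (hL : 1 ≤ L) (h : x ^ L = 1) : v p x = 1 := by
  have h1 : v p x ^ L = 1 := by rw [← v_pow, h, v_one]
  exact (pow_eq_one_iff_of_nonneg (v_nonneg p _) (by omega)).1 h1

/-! ## The two bounds for `k = k₀` -/

section

variable {p : Nat.Primes} {N : ℕ} {w : Fin N → ℤ} {A : Matrix (Fin N) (Fin N) ℤ}
  {c : Fin N → Qb} {δ : ℕ} {y : ℕ → Fin N → Qb} {ξ : Fin N → Qb} {L r : ℕ} {b : Fin N → Qb}

theorem mon_append (x z : Fin N → Qb) (a a' : Fin N → ℤ) :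
    mon (Fin.append x z) (Fin.append a a') = mon x a * mon z a' := by
  unfold mon
  rw [Fin.prod_univ_add]
  simp only [Fin.append_left, Fin.append_right]

/-- the expression of the statement -/
noncomputable def R (A : Matrix (Fin N) (Fin N) ℤ) (c : Fin N → Qb) (y : ℕ → Fin N → Qb)
    (k n : ℕ) (γ : Fin N → ℤ) : Qb :=
  mon c (vecMul γ (geo A k)) * mon (y n) (vecMul γ (A ^ k - 1))

theorem ne_zero_of_v {x : Qb} (h : v p x = 1) : x ≠ 0 := by
  intro h0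
  rw [h0, v_zero] at h
  exact zero_ne_one h

theorem R_lt (hMON : T_MON) (hCS : CS p w A c δ y) (hI : Ini p w y ξ L r b) {k : ℕ}
    (hk : ∀ i, ξ i ^ ((p : ℕ) ^ r) ^ k = ξ i) (n : ℕ) {γ : Fin N → ℤ} (hγ : Ort w γ) :
    v p (R A c y k n γ - 1) < 1 := by
  obtain ⟨M1, -, -, -, -, M6⟩ := hMON N
  have hu : ∀ a, v p (mon (y n) a) = 1 := fun a =>
    (M6 p (y n) (y n) a 1 le_rfl (hCS.unit n) (hCS.unit n)).1
  have hyn : ∀ i, y n i ≠ 0 := fun i => ne_zero_of_v (hCS.unit n i)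
  have e1 : mon (y n) (vecMul γ (A ^ k)) = mon (y n) (vecMul γ (A ^ k - 1)) * mon (y n) γ := by
    rw [← M1 _ _ _ _ hyn]
    congr 1
    rw [vecMul_sub, vecMul_one, sub_add_cancel]
  have hs := hCS.step n k γ hγ
  rw [e1, ← mul_assoc] at hs
  have hs' : v p (mon (y (n + k)) γ - R A c y k n γ * mon (y n) γ) < 1 := by
    refine hs.trans_lt (pow_lt_one₀ (inv_p_pos p).le (inv_p_lt p) ?_)
    have := hCS.two
    positivity
  have hξ : ∀ i, ξ i ^ ((p : ℕ) ^ r) ^ (n + k) = ξ i ^ ((p : ℕ) ^ r) ^ n := by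
    intro i
    rw [add_comm n k, pow_add, pow_mul, hk]
  have h1 := hI.res (n + k) γ hγ
  simp only [hξ] at h1
  have h2 := hI.res n γ hγ
  have h3 : v p ((R A c y k n γ - 1) * mon (y n) γ) < 1 := by
    have e : (R A c y k n γ - 1) * mon (y n) γ =
        ((mon (y (n + k)) γ - mon (fun i => ξ i ^ ((p : ℕ) ^ r) ^ n) γ) -
          (mon (y n) γ - mon (fun i => ξ i ^ ((p : ℕ) ^ r) ^ n) γ)) -
        (mon (y (n + k)) γ - R A c y k n γ * mon (y n) γ) := by ring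
    rw [e]
    exact v_sub_lt p (v_sub_lt p h1 h2) hs'
  rwa [v_mul, hu, mul_one] at h3

theorem R_le (hMON : T_MON) (hUN : T_UN) (hCS : CS p w A c δ y) (hI : Ini p w y ξ L r b) {k : ℕ}
    (hk : ∀ i, ξ i ^ ((p : ℕ) ^ r) ^ k = ξ i) : ∃ θ : ℝ, 0 ≤ θ ∧ θ < 1 ∧
    ∀ (n : ℕ) (γ : Fin N → ℤ), Ort w γ → v p (R A c y k n γ - 1) ≤ θ := by
  have hξ : ∀ i, v p (ξ i) = 1 := fun i => v_root p hI.L1 (hI.root i)
  obtain ⟨θ, hθ0, hθ1, hθ⟩ := hUN p (N + N) (Fin.append c ξ) (by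
    intro i
    refine Fin.addCases (fun i => ?_) (fun i => ?_) i
    · rw [Fin.append_left]; exact hCS.c1 i
    · rw [Fin.append_right]; exact hξ i)
  refine ⟨max θ ((p : ℕ) : ℝ)⁻¹, le_max_of_le_left hθ0, max_lt hθ1 (inv_p_lt p),
    fun n γ hγ => ?_⟩
  obtain ⟨M1, -, -, -, -, M6⟩ := hMON N
  have hlt := R_lt hMON hCS hI hk n hγ
  set η := vecMul γ (A ^ k - 1) with hη
  have hηo : Ort w η := by
    rw [hη, vecMul_sub, vecMul_one]
    exact ort_sub (ort_pow hCS.ort k hγ) hγ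
  have hc0 : ∀ i, c i ≠ 0 := fun i => ne_zero_of_v (hCS.c1 i)
  have hcu : ∀ a, v p (mon c a) = 1 := fun a =>
    (M6 p c c a 1 le_rfl hCS.c1 hCS.c1).1
  -- the initial point is close to `ξ`
  have hy0 : ∀ i, v p (y 0 i - ξ i) ≤ ((p : ℕ) : ℝ)⁻¹ := by
    intro i
    have e : y 0 i - ξ i = (y 0 i - ξ i * b i) + ξ i * (b i - 1) := by ring
    rw [e]
    refine v_add_le' p ((hI.y0 i).trans ?_) ?_
    · rw [pow_two]
      exact mul_le_of_le_one_right (inv_p_pos p).le (inv_p_lt p).le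
    · rw [v_mul, hξ, one_mul]
      exact hI.b1 i
  have h1 : v p (mon (y 0) (vecMul η (A ^ n)) - mon ξ (vecMul η (A ^ n))) ≤
      ((p : ℕ) : ℝ)⁻¹ :=
    (M6 p (y 0) ξ _ _ (inv_p_lt p).le (hCS.unit 0) hξ).2.2 hy0 (inv_p_pos p).le
  have h2 := hCS.step 0 n η hηo
  rw [zero_add, pow_zero, mul_one] at h2
  have h2' : v p (mon (y n) η - mon c (vecMul η (geo A n)) * mon (y 0) (vecMul η (A ^ n))) ≤
      ((p : ℕ) : ℝ)⁻¹ := by
    refine h2.trans ?_
    rw [pow_two]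
    exact mul_le_of_le_one_right (inv_p_pos p).le (inv_p_lt p).le
  set g₀ := mon c (vecMul γ (geo A k) + vecMul η (geo A n)) * mon ξ (vecMul η (A ^ n)) with hg₀
  have h3 : v p (R A c y k n γ - g₀) ≤ ((p : ℕ) : ℝ)⁻¹ := by
    have e : R A c y k n γ - g₀ = mon c (vecMul γ (geo A k)) *
        ((mon (y n) η - mon c (vecMul η (geo A n)) * mon (y 0) (vecMul η (A ^ n))) +
        mon c (vecMul η (geo A n)) *
          (mon (y 0) (vecMul η (A ^ n)) - mon ξ (vecMul η (A ^ n)))) := by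
      rw [hg₀, M1 _ _ _ _ hc0, R, ← hη]
      ring
    rw [e, v_mul, hcu, one_mul]
    refine v_add_le' p h2' ?_
    rw [v_mul, hcu, one_mul]
    exact h1
  have h4 : v p (g₀ - 1) < 1 := by
    have e : g₀ - 1 = (R A c y k n γ - 1) - (R A c y k n γ - g₀) := by ring
    rw [e]
    exact v_sub_lt p hlt (h3.trans_lt (inv_p_lt p))
  have h5 : v p (g₀ - 1) ≤ θ := by
    have := hθ (Fin.append (vecMul γ (geo A k) + vecMul η (geo A n)) (vecMul η (A ^ n)))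
    rw [mon_append] at this
    exact this h4
  have e : R A c y k n γ - 1 = (g₀ - 1) + (R A c y k n γ - g₀) := by ring
  rw [e]
  exact v_add_le' p (h5.trans (le_max_left _ _)) (h3.trans (le_max_right _ _))

end

/-- LMA: after finitely many steps the characters move inside `1 + pO` -/
theorem lma (hMON : T_MON) (hMV : T_MV) (hUN : T_UN) : T_LMA := by
  intro p N w A c δ y ξ L r b hp2 hdet hCS hI
  obtain ⟨k₁, hk₁, hA₁⟩ := exists_pow_dvM p A hdet
  have hφ : 0 < Nat.totient L := Nat.totient_pos.2 hI.L1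
  set k₀ := k₁ * Nat.totient L with hk₀
  have hk₀1 : 1 ≤ k₀ := Nat.mul_pos hk₁ hφ
  have hA₀ : DvM p (A ^ k₀ - 1) := by
    rw [hk₀, pow_mul, pow_sub_one]
    exact dvM_mul hA₁
  have hroot : ∀ i, ξ i ^ ((p : ℕ) ^ r) ^ k₀ = ξ i := by
    intro i
    have hcop : Nat.Coprime (p : ℕ) L := (p.2.coprime_iff_not_dvd).2 hI.pL
    have h1 : ((p : ℕ) ^ r) ^ k₀ ≡ 1 [MOD L] := by
      have h2 := (Nat.ModEq.pow_totient (Nat.Coprime.pow_left (r * k₁) hcop))
      rw [← pow_mul, mul_assoc] at h2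
      rw [← pow_mul, hk₀]
      exact h2
    have h3 : 1 ≤ ((p : ℕ) ^ r) ^ k₀ := Nat.one_le_iff_ne_zero.2
      (pow_ne_zero _ (pow_ne_zero _ p.2.ne_zero))
    obtain ⟨m, hm⟩ := (Nat.modEq_iff_dvd' h3).1 h1.symm
    have h4 : ((p : ℕ) ^ r) ^ k₀ = L * m + 1 := by omega
    rw [h4, pow_add, pow_mul, hI.root, one_pow, one_mul, pow_one]
  obtain ⟨θ, hθ0, hθ1, hθ⟩ := R_le hMON hUN hCS hI hroot
  -- the number of additional steps
  obtain ⟨s, hs⟩ : ∃ s : ℕ, θ ^ (p : ℕ) ^ s ≤ ((p : ℕ) : ℝ)⁻¹ := by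
    obtain ⟨n, hn⟩ := exists_pow_lt_of_lt_one (inv_p_pos p) hθ1
    refine ⟨n, (pow_le_pow_of_le_one hθ0 hθ1.le ?_).trans hn.le⟩
    exact (Nat.lt_pow_self p.2.one_lt).le
  obtain ⟨V, hV⟩ := hMV p N (A ^ k₀) p.2 hp2 hA₀
  have hgeo := hV.geo s
  refine ⟨k₀ * (p : ℕ) ^ s, Nat.mul_pos hk₀1 (Nat.pow_pos p.2.pos), ?_, fun n γ hγ => ?_⟩
  · rw [pow_mul, pow_sub_one]
    exact dvM_mul hA₀
  · obtain ⟨-, M2, -⟩ := hMON N
    have hvg : vecMul γ (geo (A ^ k₀) ((p : ℕ) ^ s)) = ((p : ℕ) ^ s) • vecMul γ (V s) := by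
      rw [hgeo, vecMul_smul]
      funext i
      simp
    have hort : Ort w (vecMul γ (V s)) := by
      have h1 : Ort w (vecMul γ (geo (A ^ k₀) ((p : ℕ) ^ s))) :=
        ort_geo (fun γ hγ => ort_pow hCS.ort k₀ hγ) _ hγ
      rw [hvg] at h1
      unfold Ort at h1 ⊢
      simp only [Pi.smul_apply, nsmul_eq_mul, mul_assoc, ← Finset.mul_sum] at h1
      rcases mul_eq_zero.1 h1 with h2 | h2
      · exfalso
        have h3 : ((p : ℕ) ^ s : ℕ) = 0 := by exact_mod_cast h2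
        exact pow_ne_zero _ p.2.ne_zero h3
      · exact h2
    have e1 : vecMul γ (geo A (k₀ * (p : ℕ) ^ s)) =
        ((p : ℕ) ^ s) • vecMul (vecMul γ (V s)) (geo A k₀) := by
      rw [geo_mul, ← vecMul_vecMul, hvg, smul_vecMul]
    have e2 : vecMul γ (A ^ (k₀ * (p : ℕ) ^ s) - 1) =
        ((p : ℕ) ^ s) • vecMul (vecMul γ (V s)) (A ^ k₀ - 1) := by
      rw [pow_mul, pow_sub_one, ← vecMul_vecMul, hvg, smul_vecMul]
    rw [e1, e2, (M2 _ _ _ _).1, (M2 _ _ _ _).1, ← mul_pow]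
    have h1 := hθ n _ hort
    have h2 := v_pow_prime_pow p (R A c y k₀ n (vecMul γ (V s))) (h1.trans hθ1.le) s
    refine h2.trans (max_le le_rfl ?_)
    exact (pow_le_pow_left₀ (v_nonneg p _) h1 _).trans hs

end Pool.Agent.H39.ZW
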